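import Pool.Agent.Helper59.DX.Plane
import Pool.Agent.Helper38.DM.NFT

/-!
# MP_28f5fb_ag, Q1: dynamical Mordell-Lang for curves under split polynomial maps over `ℂ`

The theorem `result` is the assertion of Q1: for all `N`, all complex polynomials `f_1, ..., f_N` (of any degrees),
every starting point `α ∈ ℂ^N` and every curve `C ⊆ 𝔸^N_ℂ` the return set `{n | Φ^n(α) ∈ C}` is a finite union of
arithmetic progressions.

Parts of the proof.
* `Helper38/DM`: a theorem of Thue-Siegel type with two points on a plane curve over a number field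
  (`TSData.bound`), Eisenstein's theorem, the Newton-Puiseux theorem, and from these the uniform bound `NFT` for the
  degrees of the components of `F^{-k}(C)` which contain infinitely many points of the orbit.
* `Helper59/DX`: specialisation from finitely generated fields to number fields, the Northcott property of backward
  orbits over finitely generated fields, the periodicity of plane curves, unequal degrees, linear maps, and the
  reduction of curves in `𝔸^N` to plane curves.
-/

set_option autoImplicit false

open Polynomial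

namespace Pool.Agent.Helper38.Variants.SplitCurves

/-- the split map `Φ(x_1, ..., x_N) = (f_1(x_1), ..., f_N(x_N))` -/
def splitMap {N : ℕ} (f : Fin N → ℂ[X]) (x : Fin N → ℂ) : Fin N → ℂ :=
  fun i => (f i).eval (x i)

/-- A curve in `𝔸^N_ℂ`: the set of common zeros of an ideal `I` of `ℂ[x_1, ..., x_N]` all of whose minimal primes
`p` (the irreducible components) have a coordinate ring `ℂ[x_1, ..., x_N] / p` of Krull dimension `1`. -/
def IsCurve {N : ℕ} (C : Set (Fin N → ℂ)) : Prop :=
  ∃ I : Ideal (MvPolynomial (Fin N) ℂ), C = MvPolynomial.zeroLocus ℂ I ∧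
    ∀ p ∈ I.minimalPrimes, ringKrullDim (MvPolynomial (Fin N) ℂ ⧸ p) = 1

/-- the arithmetic progression `{a + k b : k ≥ 0}`; `b = 0` is allowed -/
def progression (a b : ℕ) : Set ℕ := {n | ∃ k : ℕ, n = a + k * b}

/-- the return set `{n ≥ 0 : Φ^n(α) ∈ C}` -/
def returnSet {N : ℕ} (f : Fin N → ℂ[X]) (C : Set (Fin N → ℂ)) (α : Fin N → ℂ) : Set ℕ :=
  {n | (splitMap f)^[n] α ∈ C}

theorem result (N : ℕ) (f : Fin N → ℂ[X]) (α : Fin N → ℂ) (C : Set (Fin N → ℂ))
    (hC : IsCurve C) :
    ∃ T : Finset (ℕ × ℕ), returnSet f C α = ⋃ t ∈ T, progression t.1 t.2 := by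
  obtain ⟨I, rfl, hI⟩ := hC
  exact Pool.Agent.Helper59.DX.dml_curves
    (fun d D1 D2 hd => Pool.Agent.Helper38.DM.NFT d D1 D2 hd) f α I hI

end Pool.Agent.Helper38.Variants.SplitCurves
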